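import Mathlib
import Pool.Agent.Helper43_HAM.Stmts

/-!
# HAM: facts on `cl`, `cpairs` and `Static` (used in the modules CNT and LGR)
-/

set_option autoImplicit false

namespace Pool.Agent.HAM.H75

open Equiv
open Pool.Agent.HAM

theorem mem_cl_false {I : Type} (v : List I × List I) (e : I) :
    (e, false) ∈ cl v ↔ e ∈ v.2 := by
  obtain ⟨ins, outs⟩ := v
  cases ins with
  | nil => simp [cl]
  | cons a ins => simp [cl]

theorem mem_cl_true {I : Type} (v : List I × List I) (e : I) :
    (e, true) ∈ cl v ↔ e ∈ v.1 := by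
  obtain ⟨ins, outs⟩ := v
  cases ins with
  | nil => simp [cl]
  | cons a ins => simp [cl]

theorem cl_length {I : Type} (v : List I × List I) :
    (cl v).length = v.1.length + v.2.length := by
  obtain ⟨ins, outs⟩ := v
  cases ins with
  | nil => simp [cl]
  | cons a ins => simp [cl]; omega

theorem cl_perm {I : Type} (v : List I × List I) :
    (cl v).Perm (v.2.map (fun e => (e, false)) ++ v.1.map (fun e => (e, true))) := by
  obtain ⟨ins, outs⟩ := v
  cases ins with
  | nil => simp [cl]
  | cons a ins =>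
    simp only [cl, List.map_cons]
    refine (List.Perm.cons _ ?_).trans List.perm_middle.symm
    exact List.Perm.append_left _ ((List.reverse_perm ins).map _)

theorem flatMap_cl_perm (vs : List (List ℕ × List ℕ)) :
    (vs.flatMap cl).Perm ((vs.flatMap Prod.snd).map (fun e => (e, false)) ++
      (vs.flatMap Prod.fst).map (fun e => (e, true))) := by
  induction vs with
  | nil => simp
  | cons v vs ih =>
    simp only [List.flatMap_cons, List.map_append]
    refine ((cl_perm v).append ih).trans ?_
    simp only [List.append_assoc]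
    refine List.Perm.append_left _ ?_
    rw [← List.append_assoc, ← List.append_assoc]
    exact List.Perm.append_right _ List.perm_append_comm

theorem static_perm {m : ℕ} {vs : List (List ℕ × List ℕ)} (h : Static m vs) :
    (vs.flatMap cl).Perm ((List.range m).map (fun e => (e, false)) ++
      (List.range m).map (fun e => (e, true))) := by
  refine (flatMap_cl_perm vs).trans ?_
  rw [h.outs]
  exact List.Perm.append_left _ (h.ins.map _)

theorem static_nodup {m : ℕ} {vs : List (List ℕ × List ℕ)} (h : Static m vs) :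
    (vs.flatMap cl).Nodup := by
  rw [(static_perm h).nodup_iff, List.nodup_append]
  refine ⟨List.Nodup.map (fun a b h => (Prod.mk.inj h).1) List.nodup_range,
    List.Nodup.map (fun a b h => (Prod.mk.inj h).1) List.nodup_range, ?_⟩
  intro a ha b hb hab
  rw [List.mem_map] at ha hb
  obtain ⟨x, _, rfl⟩ := ha
  obtain ⟨y, _, rfl⟩ := hb
  exact absurd (Prod.mk.inj hab).2 (by decide)

theorem static_mem {m : ℕ} {vs : List (List ℕ × List ℕ)} (h : Static m vs) (p : ℕ × Bool) :
    p ∈ vs.flatMap cl ↔ p.1 < m := by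
  rw [(static_perm h).mem_iff]
  obtain ⟨e, b⟩ := p
  cases b <;> simp

theorem mem_of_cpairs {I : Type} {l : List I} {p : I × I} (h : p ∈ cpairs l) :
    p.1 ∈ l ∧ p.2 ∈ l := by
  obtain ⟨a, b⟩ := p
  have := List.of_mem_zip h
  exact ⟨this.1, List.mem_rotate.1 this.2⟩

theorem cpairs_fst {I : Type} (l : List I) : (cpairs l).map Prod.fst = l :=
  List.map_fst_zip (by simp)

/-- a function which is invariant along the cyclic list is constant -/
theorem cpairs_const {I K : Type} {l : List I} {F : I → K}
    (h : ∀ p ∈ cpairs l, F p.1 = F p.2) : ∀ x ∈ l, ∀ y ∈ l, F x = F y := by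
  have key : ∀ (n : ℕ) (hn : n < l.length), F l[n] = F (l[0]'(by omega)) := by
    intro n
    induction n with
    | zero => intro _; rfl
    | succ n ih =>
      intro hn
      rw [← ih (by omega)]
      symm
      apply h (l[n], l[n + 1])
      unfold cpairs
      rw [List.mem_iff_getElem]
      refine ⟨n, by simp; omega, ?_⟩
      rw [List.getElem_zip, List.getElem_rotate]
      congr 1
      congr 1
      exact Nat.mod_eq_of_lt hn
  intro x hx y hy
  obtain ⟨i, hi, rfl⟩ := List.mem_iff_getElem.1 hx
  obtain ⟨j, hj, rfl⟩ := List.mem_iff_getElem.1 hy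
  rw [key i hi, key j hj]

theorem cpairs_ne {I : Type} {l : List I} (hl : l.Nodup) (h2 : 2 ≤ l.length) {p : I × I}
    (hp : p ∈ cpairs l) : p.1 ≠ p.2 := by
  unfold cpairs at hp
  obtain ⟨i, hi, rfl⟩ := List.mem_iff_getElem.1 hp
  rw [List.getElem_zip, List.getElem_rotate]
  intro he
  have hi' : i < l.length := by
    simpa using hi
  have := (List.Nodup.getElem_inj_iff hl).1 he
  rcases Nat.lt_or_ge (i + 1) l.length with h | h
  · rw [Nat.mod_eq_of_lt h] at this
    omega
  · have h3 : i + 1 = l.length := by omega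
    rw [h3, Nat.mod_self] at this
    omega

/-- each dart is at one vertex -/
theorem static_uniq {m : ℕ} {vs : List (List ℕ × List ℕ)} (h : Static m vs)
    (t t' : Fin vs.length) {p : ℕ × Bool} (h1 : p ∈ cl (vs.get t)) (h2 : p ∈ cl (vs.get t')) :
    t = t' := by
  have h3 := (List.nodup_flatMap.1 (static_nodup h)).2
  rw [List.pairwise_iff_get] at h3
  rcases lt_trichotomy t t' with h4 | h4 | h4
  · exact absurd h2 (h3 t t' h4 h1)
  · exact h4
  · exact absurd h1 (h3 t' t h4 h2)

theorem static_nodup_cl {m : ℕ} {vs : List (List ℕ × List ℕ)} (h : Static m vs)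
    {v : List ℕ × List ℕ} (hv : v ∈ vs) : (cl v).Nodup :=
  (List.nodup_flatMap.1 (static_nodup h)).1 v hv

/-- incoming edges of the vertex `t` are outgoing edges of a vertex `t' < t` -/
theorem static_lt {m : ℕ} {vs : List (List ℕ × List ℕ)} (h : Static m vs)
    (t : Fin vs.length) {e : ℕ} (he : e ∈ (vs.get t).1) :
    ∃ t' : Fin vs.length, t' < t ∧ e ∈ (vs.get t').2 := by
  obtain ⟨t', h1, h2⟩ := h.lt t.1 e (by
    rw [List.getD_eq_getElem _ _ t.2]
    exact he)
  have h3 : t' < vs.length := lt_trans h1 t.2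
  rw [List.getD_eq_getElem _ _ h3] at h2
  exact ⟨⟨t', h3⟩, h1, h2⟩

theorem static_ok {m : ℕ} {vs : List (List ℕ × List ℕ)} (h : Static m vs)
    (t t' : Fin vs.length) (htt : t ≤ t') {e : ℕ} (he : e ∈ (vs.get t).1) :
    e ∉ (vs.get t').2 := by
  intro h2
  obtain ⟨s, h3, h4⟩ := static_lt h t he
  have h5 := static_uniq h s t' ((mem_cl_false _ _).2 h4) ((mem_cl_false _ _).2 h2)
  subst h5
  exact absurd (lt_of_lt_of_le h3 htt) (lt_irrefl _)

theorem static_len {m : ℕ} {vs : List (List ℕ × List ℕ)} (h : Static m vs)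
    (t : Fin vs.length) : 2 ≤ (cl (vs.get t)).length := by
  rw [cl_length]
  obtain ⟨t, ht⟩ := t
  have hg : vs.getD t ([], []) = vs.get ⟨t, ht⟩ := List.getD_eq_getElem _ _ ht
  rcases Nat.eq_zero_or_pos t with h0 | h0
  · subst h0
    have h1 := h.first
    rw [List.getElem?_eq_getElem ht] at h1
    have h2 : vs.get ⟨0, ht⟩ = ([], [0, 1]) := Option.some.inj h1
    rw [h2]
    simp
  · rcases Nat.lt_or_ge (t + 1) vs.length with h1 | h1
    · have h2 := h.inner t h0 h1
      rw [hg] at h2
      have h3 := List.length_pos_iff.2 h2.1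
      have h4 := List.length_pos_iff.2 h2.2
      omega
    · have h2 := h.last.1
      have h3 : vs.length - 1 = t := by omega
      rw [h3, hg] at h2
      omega

theorem static_two {m : ℕ} {vs : List (List ℕ × List ℕ)} (h : Static m vs) :
    ∃ r, vs = ([], [0, 1]) :: ([0], [2, 3]) :: r := by
  have h1 := h.first
  have h2 := h.second
  match vs, h1, h2 with
  | a :: b :: r, h1, h2 =>
    simp only [List.getElem?_cons_zero, Option.some.injEq] at h1
    simp only [List.getElem?_cons_succ, List.getElem?_cons_zero, Option.some.injEq] at h2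
    exact ⟨r, by rw [h1, h2]⟩
  | [a], h1, h2 => simp at h2
  | [], h1, h2 => simp at h1

/-- darts with number `< m` are darts -/
theorem nm_surj {m : ℕ} {p : ℕ × Bool} (h : p.1 < m) : ∃ x : Dart (Fin m), nm x = p :=
  ⟨(⟨p.1, h⟩, p.2), rfl⟩

theorem nm_inj {m : ℕ} {x y : Dart (Fin m)} (h : nm x = nm y) : x = y := by
  obtain ⟨a, b⟩ := x
  obtain ⟨c, d⟩ := y
  have h1 := Prod.mk.inj h
  exact Prod.ext (Fin.ext h1.1) h1.2

end Pool.Agent.HAM.H75
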