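import Mathlib
import Pool.Agent.Helper43_HAM.Stmts
import Pool.Agent.Helper75_HAM.Cl

/-!
# HAM, module CNT: the number of colourings of the map modulo `2`
-/

set_option autoImplicit false

namespace Pool.Agent.HAM.H75

open Equiv
open Pool.Agent.HAM

/-- the outgoing edges `l` get the colour `v` -/
def upd (f : ℕ → Fin 3) (l : List ℕ) (v : Fin 3) : ℕ → Fin 3 := fun e => if e ∈ l then v else f e

/-- the number of colourings of the vertices in the list, `f` = colours of the tails -/
def cnt : List (List ℕ × List ℕ) → (ℕ → Fin 3) → ZMod 2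
  | [], _ => 1
  | v :: r, f => ∑ x : Fin 3, if x ∈ v.1.map f then 0 else cnt r (upd f v.2 x)

theorem map_upd_of {f : ℕ → Fin 3} {l : List ℕ} {x : Fin 3} {k : List ℕ}
    (h : ∀ e ∈ k, e ∉ l) : k.map (upd f l x) = k.map f := by
  refine List.map_congr_left fun e he => ?_
  unfold upd
  rw [if_neg (h e he)]

theorem app_cnt : ∀ (w : List Op) (s : St ℕ), (∀ e ∈ s.fr, e < s.m) →
    (run id s w).fr = [] → ∃ r, (run id s w).vs = s.vs ++ r ∧
      ∀ f : ℕ → Fin 3, app w Fend (s.fr.map f) = cnt r f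
  | [], s, _, he => by
    refine ⟨[], by simp [run], fun f => ?_⟩
    have h : s.fr = [] := he
    rw [h]
    rfl
  | .rot k :: w, s, hm, he => by
    obtain ⟨r, h1, h2⟩ := app_cnt w ⟨s.fr.rotate k, s.m, s.vs⟩
      (by intro e h; exact hm e (List.mem_rotate.1 h)) he
    refine ⟨r, h1, fun f => ?_⟩
    rw [← h2 f]
    show app w Fend ((s.fr.map f).rotate k) = app w Fend ((s.fr.rotate k).map f)
    rw [List.map_rotate]
  | .vtx i a b :: w, s, hm, he => by
    obtain ⟨r, h1, h2⟩ := app_cnt w (step id s (.vtx i a b)) (by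
      intro e h
      simp only [step, List.mem_append, List.map_id, List.mem_range'_1] at h ⊢
      rcases h with (h | h) | h
      · exact lt_of_lt_of_le (hm e (List.mem_of_mem_take h)) (Nat.le_add_right _ _)
      · exact h.2
      · exact lt_of_lt_of_le (hm e (List.mem_of_mem_drop h)) (Nat.le_add_right _ _)) he
    refine ⟨((s.fr.drop i).take a, (List.range' s.m b).map id) :: r, ?_, fun f => ?_⟩
    · show (run id (step id s (.vtx i a b)) w).vs = _
      rw [h1]
      simp [step]
    · show (∑ v : Fin 3, if v ∈ ((s.fr.map f).drop i).take a then 0 else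
        app w Fend ((s.fr.map f).take i ++ List.replicate b v ++ (s.fr.map f).drop (i + a))) = _
      unfold cnt
      refine Finset.sum_congr rfl fun x _ => ?_
      have e1 : ((s.fr.map f).drop i).take a = ((s.fr.drop i).take a).map f := by
        rw [← List.map_drop, ← List.map_take]
      rw [e1]
      split_ifs with h3
      · rfl
      · rw [← h2]
        congr 1
        have hn : ∀ e ∈ s.fr, e ∉ (List.range' s.m b).map id := by
          intro e h4 h5
          rw [List.map_id, List.mem_range'_1] at h5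
          exact absurd (hm e h4) (not_lt.2 h5.1)
        show _ = ((s.fr.take i ++ (List.range' s.m b).map id ++ s.fr.drop (i + a))).map _
        rw [List.map_append, List.map_append,
          map_upd_of (fun e h => hn e (List.mem_of_mem_take h)),
          map_upd_of (fun e h => hn e (List.mem_of_mem_drop h)), List.map_take, List.map_drop]
        congr 2
        symm
        refine List.eq_replicate_iff.2 ⟨by simp, ?_⟩
        intro y hy
        rw [List.mem_map] at hy
        obtain ⟨e, h4, rfl⟩ := hy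
        unfold upd
        rw [if_pos h4]

/-- `c` is a colouring of the vertices in the list, `f` = colours of the tails -/
def W : (vs : List (List ℕ × List ℕ)) → (ℕ → Fin 3) → (Fin vs.length → Fin 3) → Prop
  | [], _, _ => True
  | v :: r, f, c => (∀ e ∈ v.1, f e ≠ c ⟨0, Nat.succ_pos _⟩) ∧
    W r (upd f v.2 (c ⟨0, Nat.succ_pos _⟩)) (fun i => c i.succ)

open Classical in
theorem cnt_sum : ∀ (vs : List (List ℕ × List ℕ)) (f : ℕ → Fin 3),
    cnt vs f = ∑ c : Fin vs.length → Fin 3, if W vs f c then 1 else 0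
  | [], f => by
    have : (∑ c : Fin ([] : List (List ℕ × List ℕ)).length → Fin 3,
        if W [] f c then (1 : ZMod 2) else 0) = ∑ c : Fin 0 → Fin 3, 1 := by
      refine Finset.sum_congr rfl fun c _ => ?_
      rw [if_pos]
      trivial
    rw [this]
    simp [cnt]
  | v :: r, f => by
    have h1 : (∑ c : Fin (v :: r).length → Fin 3, if W (v :: r) f c then (1 : ZMod 2) else 0) =
        ∑ x : Fin 3, ∑ c : Fin r.length → Fin 3,
          if (∀ e ∈ v.1, f e ≠ x) ∧ W r (upd f v.2 x) c then (1 : ZMod 2) else 0 := by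
      have h2 := (Fin.consEquiv (fun _ : Fin (r.length + 1) => Fin 3)).sum_comp
        (fun c : Fin (r.length + 1) → Fin 3 =>
          if W (v :: r) f c then (1 : ZMod 2) else 0)
      rw [Fintype.sum_prod_type] at h2
      refine h2.symm.trans ?_
      refine Finset.sum_congr rfl fun x _ => Finset.sum_congr rfl fun c _ => ?_
      exact if_congr Iff.rfl rfl rfl
    rw [h1]
    unfold cnt
    refine Finset.sum_congr rfl fun x _ => ?_
    rw [cnt_sum r (upd f v.2 x)]
    by_cases h3 : x ∈ v.1.map f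
    · rw [if_pos h3]
      symm
      refine Finset.sum_eq_zero fun c _ => ?_
      rw [if_neg]
      rintro ⟨h4, _⟩
      rw [List.mem_map] at h3
      obtain ⟨e, h5, h6⟩ := h3
      exact h4 e h5 h6
    · rw [if_neg h3]
      refine Finset.sum_congr rfl fun c _ => ?_
      have h4 : (∀ e ∈ v.1, f e ≠ x) := by
        intro e h5 h6
        exact h3 (List.mem_map.2 ⟨e, h5, h6⟩)
      by_cases h5 : W r (upd f v.2 x) c
      · rw [if_pos h5, if_pos ⟨h4, h5⟩]
      · rw [if_neg h5, if_neg (fun h => h5 h.2)]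

theorem W_iff : ∀ (vs : List (List ℕ × List ℕ)) (f g : ℕ → Fin 3) (c : Fin vs.length → Fin 3),
    (∀ t t' : Fin vs.length, t ≤ t' → ∀ e ∈ (vs.get t).1, e ∉ (vs.get t').2) →
    (∀ e, (∀ t : Fin vs.length, e ∉ (vs.get t).2) → g e = f e) →
    (∀ t : Fin vs.length, ∀ e ∈ (vs.get t).2, g e = c t) →
    (W vs f c ↔ ∀ t : Fin vs.length, ∀ e ∈ (vs.get t).1, g e ≠ c t)
  | [], f, g, c, _, _, _ => by
    constructor
    · intro _ t
      exact absurd t.2 (Nat.not_lt_zero _)
    · intro _
      trivial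
  | v :: r, f, g, c, h1, h2, h3 => by
    have ih := W_iff r (upd f v.2 (c ⟨0, Nat.succ_pos _⟩)) g (fun i => c i.succ)
      (fun t t' htt e he => h1 t.succ t'.succ (Fin.succ_le_succ_iff.2 htt) e he)
      (fun e he => by
        unfold upd
        by_cases h4 : e ∈ v.2
        · rw [if_pos h4]
          exact h3 ⟨0, Nat.succ_pos _⟩ e h4
        · rw [if_neg h4]
          apply h2
          intro t
          refine Fin.cases ?_ (fun t => ?_) t
          · exact h4
          · exact he t)
      (fun t e he => h3 t.succ e he)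
    show ((∀ e ∈ v.1, f e ≠ c ⟨0, Nat.succ_pos _⟩) ∧ _) ↔ _
    rw [ih]
    have h5 : ∀ e ∈ v.1, g e = f e := by
      intro e he
      apply h2
      intro t
      exact h1 ⟨0, Nat.succ_pos _⟩ t (Fin.zero_le _) e he
    constructor
    · rintro ⟨h6, h7⟩ t
      refine Fin.cases ?_ (fun t => ?_) t
      · intro e he
        have he' : e ∈ v.1 := he
        rw [h5 e he']
        exact h6 e he'
      · exact h7 t
    · intro h6
      refine ⟨fun e he => ?_, fun t => h6 t.succ⟩
      rw [← h5 e he]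
      exact h6 ⟨0, Nat.succ_pos _⟩ e he

section Main

variable {m : ℕ} {vs : List (List ℕ × List ℕ)}

theorem exists_vx (h : Static m vs) (x : Dart (Fin m)) :
    ∃ t : Fin vs.length, nm x ∈ cl (vs.get t) := by
  have h1 := (static_mem h (nm x)).2 x.1.2
  rw [List.mem_flatMap] at h1
  obtain ⟨v, hv, h2⟩ := h1
  obtain ⟨t, rfl⟩ := List.mem_iff_get.1 hv
  exact ⟨t, h2⟩

/-- the number of the vertex of a dart -/
noncomputable def vx (h : Static m vs) (x : Dart (Fin m)) : Fin vs.length :=
  (exists_vx h x).choose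

theorem vx_spec (h : Static m vs) (x : Dart (Fin m)) : nm x ∈ cl (vs.get (vx h x)) :=
  (exists_vx h x).choose_spec

theorem vx_eq (h : Static m vs) {x : Dart (Fin m)} {t : Fin vs.length}
    (ht : nm x ∈ cl (vs.get t)) : vx h x = t := static_uniq h _ _ (vx_spec h x) ht

theorem vx_surj (h : Static m vs) (t : Fin vs.length) : ∃ x, vx h x = t := by
  have h0 := static_len h t
  obtain ⟨p, hp⟩ : ∃ p, p ∈ cl (vs.get t) := List.exists_mem_of_length_pos (by omega)
  have h1 : p.1 < m := (static_mem h p).1 (List.mem_flatMap.2 ⟨_, List.get_mem _ _, hp⟩)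
  obtain ⟨x, rfl⟩ := nm_surj h1
  exact ⟨x, vx_eq h hp⟩

theorem vx_sigma (h : Static m vs) {σ : Perm (Dart (Fin m))} (hr : Realises m vs σ)
    (x : Dart (Fin m)) : vx h (σ x) = vx h x := by
  obtain ⟨v, hv, h1⟩ := (hr x (σ x)).1 rfl
  obtain ⟨t, rfl⟩ := List.mem_iff_get.1 hv
  have h2 := mem_of_cpairs h1
  rw [vx_eq h h2.1, vx_eq h h2.2]

theorem const_vx (h : Static m vs) {σ : Perm (Dart (Fin m))} (hr : Realises m vs σ)
    {χ : Dart (Fin m) → Fin 3} (hχ : ∀ d, χ (σ d) = χ d) {x y : Dart (Fin m)}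
    (hxy : vx h x = vx h y) : χ x = χ y := by
  let F : ℕ × Bool → Fin 3 := fun p => if hp : p.1 < m then χ (⟨p.1, hp⟩, p.2) else 0
  have hF : ∀ x : Dart (Fin m), F (nm x) = χ x := fun x => by
    have h1 : (nm x).1 < m := x.1.2
    show (if hp : (nm x).1 < m then χ (⟨(nm x).1, hp⟩, (nm x).2) else 0) = χ x
    rw [dif_pos h1]
    rfl
  rw [← hF x, ← hF y]
  refine cpairs_const (l := cl (vs.get (vx h x))) (F := F) ?_ _ (vx_spec h x) _ ?_
  · intro p hp
    have hm := mem_of_cpairs hp
    have h1 : p.1.1 < m := (static_mem h p.1).1 (List.mem_flatMap.2 ⟨_, List.get_mem _ _, hm.1⟩)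
    have h2 : p.2.1 < m := (static_mem h p.2).1 (List.mem_flatMap.2 ⟨_, List.get_mem _ _, hm.2⟩)
    obtain ⟨a, ha⟩ := nm_surj h1
    obtain ⟨b, hb⟩ := nm_surj h2
    rw [← ha, ← hb, hF, hF]
    have h3 : σ a = b := (hr a b).2 ⟨_, List.get_mem _ _, by rw [ha, hb]; exact hp⟩
    rw [← h3, hχ]
  · rw [hxy]
    exact vx_spec h y

theorem colCount_eq (h : Static m vs) {σ : Perm (Dart (Fin m))} (hr : Realises m vs σ)
    (e₀ : Fin m) : colCount σ e₀ = Nat.card {c : Fin vs.length → Fin 3 //
      (∀ e : Fin m, c (vx h (e, false)) ≠ c (vx h (e, true))) ∧ c (vx h (e₀, false)) = 0 ∧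
        c (vx h (e₀, true)) = 1} := by
  symm
  refine Nat.card_congr (Equiv.ofBijective (fun c => ⟨fun x => c.1 (vx h x), ?_, ?_, ?_, ?_⟩)
    ⟨?_, ?_⟩)
  · intro d
    show c.1 (vx h (σ d)) = c.1 (vx h d)
    rw [vx_sigma h hr]
  · exact c.2.1
  · exact c.2.2.1
  · exact c.2.2.2
  · intro c c' hc
    have h1 := congrArg Subtype.val hc
    apply Subtype.ext
    funext t
    obtain ⟨x, rfl⟩ := vx_surj h t
    exact congrFun h1 x
  · rintro ⟨χ, h1, h2, h3, h4⟩
    have key : ∀ x, χ ((vx_surj h (vx h x)).choose) = χ x := fun x =>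
      const_vx h hr h1 (vx_surj h (vx h x)).choose_spec
    refine ⟨⟨fun t => χ (vx_surj h t).choose, ?_, ?_, ?_⟩, ?_⟩
    · intro e
      show χ ((vx_surj h (vx h (e, false))).choose) ≠ χ ((vx_surj h (vx h (e, true))).choose)
      rw [key, key]
      exact h2 e
    · show χ ((vx_surj h (vx h (e₀, false))).choose) = 0
      rw [key, h3]
    · show χ ((vx_surj h (vx h (e₀, true))).choose) = 1
      rw [key, h4]
    · apply Subtype.ext
      funext x
      exact key x

theorem W_valid (h : Static m vs) (c : Fin vs.length → Fin 3) :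
    W vs (fun _ => 0) c ↔ ∀ e : Fin m, c (vx h (e, false)) ≠ c (vx h (e, true)) := by
  rw [W_iff vs (fun _ => 0)
    (fun e => if he : e < m then c (vx h (⟨e, he⟩, false)) else 0) c
    (fun t t' htt e he => static_ok h t t' htt he)]
  · constructor
    · intro h1 e
      have h2 := h1 (vx h (e, true)) e.1 ((mem_cl_true _ _).1 (vx_spec h (e, true)))
      rw [dif_pos e.2] at h2
      exact h2
    · intro h1 t e he
      have h2 : e < m := (static_mem h (e, true)).1
        (List.mem_flatMap.2 ⟨_, List.get_mem _ _, (mem_cl_true _ _).2 he⟩)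
      rw [dif_pos h2]
      have h3 : vx h (⟨e, h2⟩, true) = t := vx_eq h ((mem_cl_true _ _).2 he)
      rw [← h3]
      exact h1 ⟨e, h2⟩
  · intro e he
    rw [dif_neg]
    intro h1
    exact he (vx h (⟨e, h1⟩, false)) ((mem_cl_false _ _).1 (vx_spec h (⟨e, h1⟩, false)))
  · intro t e he
    have h2 : e < m := (static_mem h (e, false)).1
      (List.mem_flatMap.2 ⟨_, List.get_mem _ _, (mem_cl_false _ _).2 he⟩)
    rw [dif_pos h2]
    have h3 : vx h (⟨e, h2⟩, false) = t := vx_eq h ((mem_cl_false _ _).2 he)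
    rw [h3]

open Classical in
theorem count_two {r : List (List ℕ × List ℕ)} :
    (∑ c : Fin (([], [0, 1]) :: ([0], [2, 3]) :: r : List (List ℕ × List ℕ)).length → Fin 3,
      if W (([], [0, 1]) :: ([0], [2, 3]) :: r) (fun _ => 0) c ∧
        c ⟨0, Nat.succ_pos _⟩ = 0 ∧ c ⟨1, Nat.succ_lt_succ (Nat.succ_pos _)⟩ = 1
      then (1 : ZMod 2) else 0) =
    cnt r (upd (upd (fun _ => 0) [0, 1] 0) [2, 3] 1) := by
  rw [cnt_sum]
  have h2 := (Fin.consEquiv (fun _ : Fin (r.length + 2) => Fin 3)).sum_comp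
    (fun c : Fin (r.length + 2) → Fin 3 =>
      if W (([], [0, 1]) :: ([0], [2, 3]) :: r) (fun _ => 0) c ∧
        c ⟨0, Nat.succ_pos _⟩ = 0 ∧ c ⟨1, Nat.succ_lt_succ (Nat.succ_pos _)⟩ = 1
      then (1 : ZMod 2) else 0)
  rw [Fintype.sum_prod_type] at h2
  refine h2.symm.trans ?_
  rw [Fintype.sum_eq_single (0 : Fin 3)]
  · have h3 := (Fin.consEquiv (fun _ : Fin (r.length + 1) => Fin 3)).sum_comp
      (fun c : Fin (r.length + 1) → Fin 3 =>
        if W (([], [0, 1]) :: ([0], [2, 3]) :: r) (fun _ => 0)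
            ((Fin.consEquiv (fun _ : Fin (r.length + 2) => Fin 3)) (0, c)) ∧
          (Fin.consEquiv (fun _ : Fin (r.length + 2) => Fin 3)) (0, c) ⟨0, Nat.succ_pos _⟩ = 0 ∧
          (Fin.consEquiv (fun _ : Fin (r.length + 2) => Fin 3)) (0, c)
            ⟨1, Nat.succ_lt_succ (Nat.succ_pos _)⟩ = 1
        then (1 : ZMod 2) else 0)
    rw [Fintype.sum_prod_type] at h3
    refine h3.symm.trans ?_
    rw [Fintype.sum_eq_single (1 : Fin 3)]
    · refine Finset.sum_congr rfl fun c _ => ?_
      refine if_congr ?_ rfl rfl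
      constructor
      · rintro ⟨⟨_, _, h4⟩, _⟩
        exact h4
      · intro h4
        refine ⟨⟨?_, ?_, h4⟩, rfl, rfl⟩
        · intro e he
          exact absurd he List.not_mem_nil
        · intro e he
          rw [List.mem_singleton] at he
          subst he
          show (0 : Fin 3) ≠ 1
          decide
    · intro y hy
      refine Finset.sum_eq_zero fun c _ => ?_
      rw [if_neg]
      rintro ⟨_, _, h4⟩
      exact hy h4
  · intro x hx
    refine Finset.sum_eq_zero fun c _ => ?_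
    rw [if_neg]
    rintro ⟨_, h4, _⟩
    exact hx h4

open Classical in
theorem cnt_main (h : Static m vs) {σ : Perm (Dart (Fin m))} (hr : Realises m vs σ)
    (h₀ : 0 < m) {r : List (List ℕ × List ℕ)} (hvs : vs = ([], [0, 1]) :: ([0], [2, 3]) :: r) :
    ((colCount σ ⟨0, h₀⟩ : ℕ) : ZMod 2) =
      cnt r (upd (upd (fun _ => 0) [0, 1] 0) [2, 3] 1) := by
  rw [colCount_eq h hr, Nat.card_eq_fintype_card, Fintype.card_subtype, Finset.card_filter,
    ← count_two]
  subst hvs
  push_cast
  have e0 : vx h (⟨0, h₀⟩, false) = ⟨0, Nat.succ_pos _⟩ := vx_eq h (by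
    rw [show nm ((⟨0, h₀⟩, false) : Dart (Fin m)) = (0, false) from rfl, mem_cl_false]
    simp)
  have e1 : vx h (⟨0, h₀⟩, true) = ⟨1, Nat.succ_lt_succ (Nat.succ_pos _)⟩ := vx_eq h (by
    rw [show nm ((⟨0, h₀⟩, true) : Dart (Fin m)) = (0, true) from rfl, mem_cl_true]
    simp)
  refine Finset.sum_congr rfl fun c _ => ?_
  refine if_congr ?_ rfl rfl
  rw [W_valid h c, e0, e1]

end Main

theorem cnt_thm (hSta : StaStmt) : CntStmt := by
  intro w a σ h₀ hl ha hr
  obtain ⟨hfr, hs⟩ := hSta w a hl ha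
  obtain ⟨r, h1, h2⟩ := app_cnt (w ++ [Op.vtx 0 a 0])
    ⟨[2, 3, 1], 4, [([], [0, 1]), ([0], [2, 3])]⟩
    (by
      intro e he
      simp only [List.mem_cons, List.not_mem_nil, or_false] at he
      show e < 4
      omega) hfr
  have h3 : (fin w a).vs = ([], [0, 1]) :: ([0], [2, 3]) :: r := h1
  rw [cnt_main hs hr h₀ h3, ← h2]
  rfl

end Pool.Agent.HAM.H75
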