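import Mathlib
import Pool.Agent.Helper43_HAM.Stmts
import Pool.Agent.Helper75_HAM.Cl

/-!
# HAM, module LGR: the edge list of the flag graph
-/

set_option autoImplicit false

namespace Pool.Agent.HAM.H75

open Equiv
open Pool.Agent.HAM

/-- all edges of the flag graph -/
def full (m : ℕ) (vs : List (List ℕ × List ℕ)) : List (ℕ × ℕ) :=
  (List.range m).flatMap ee ++ vs.flatMap ve

theorem vn_lt {m : ℕ} {x : ℕ × Bool} (h : x.1 < m) (s : Bool) : vn x s < 4 * m := by
  unfold vn
  have h1 : x.2.toNat ≤ 1 := Bool.toNat_le _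
  have h2 : s.toNat ≤ 1 := Bool.toNat_le _
  omega

theorem vn_inj {x y : ℕ × Bool} {s t : Bool} (h : vn x s = vn y t) : x = y ∧ s = t := by
  unfold vn at h
  obtain ⟨a, b⟩ := x
  obtain ⟨c, d⟩ := y
  cases b <;> cases d <;> cases s <;> cases t <;> simp at h ⊢ <;> omega

theorem vn_surj {m v : ℕ} (h : v < 4 * m) : ∃ (x : Dart (Fin m)) (s : Bool), vn (nm x) s = v := by
  refine ⟨(⟨v / 4, by omega⟩, decide (v / 2 % 2 = 1)), decide (v % 2 = 1), ?_⟩
  unfold vn nm
  dsimp only
  have h1 : (decide (v / 2 % 2 = 1)).toNat = v / 2 % 2 := by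
    rcases Nat.mod_two_eq_zero_or_one (v / 2) with h | h <;> simp [h]
  have h2 : (decide (v % 2 = 1)).toNat = v % 2 := by
    rcases Nat.mod_two_eq_zero_or_one v with h | h <;> simp [h]
  rw [h1, h2]
  omega

theorem mem_ee {m : ℕ} {p : ℕ × ℕ} : p ∈ (List.range m).flatMap ee ↔
    ∃ x y : Dart (Fin m), p = (vn (nm x) false, vn (nm y) true) ∧ (y = x ∨ y = opp x) := by
  rw [List.mem_flatMap]
  constructor
  · rintro ⟨e, he, hp⟩
    rw [List.mem_range] at he
    simp only [ee, List.mem_cons, List.not_mem_nil, or_false] at hp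
    rcases hp with rfl | rfl | rfl | rfl
    · exact ⟨(⟨e, he⟩, false), (⟨e, he⟩, false), rfl, Or.inl rfl⟩
    · exact ⟨(⟨e, he⟩, true), (⟨e, he⟩, true), rfl, Or.inl rfl⟩
    · exact ⟨(⟨e, he⟩, false), (⟨e, he⟩, true), rfl, Or.inr rfl⟩
    · exact ⟨(⟨e, he⟩, true), (⟨e, he⟩, false), rfl, Or.inr rfl⟩
  · rintro ⟨⟨e, b⟩, y, rfl, h⟩
    refine ⟨e.1, List.mem_range.2 e.2, ?_⟩
    rcases h with rfl | rfl <;> cases b <;> simp [ee, nm, opp]

theorem mem_vsve {m : ℕ} {vs : List (List ℕ × List ℕ)} {σ : Perm (Dart (Fin m))}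
    (h : Static m vs) (hr : Realises m vs σ) {p : ℕ × ℕ} : p ∈ vs.flatMap ve ↔
    ∃ x : Dart (Fin m), p = (vn (nm x) false, vn (nm (σ x)) true) := by
  rw [List.mem_flatMap]
  constructor
  · rintro ⟨v, hv, hp⟩
    unfold ve at hp
    rw [List.mem_map] at hp
    obtain ⟨q, hq, rfl⟩ := hp
    have hm := mem_of_cpairs hq
    have h1 : q.1.1 < m := (static_mem h q.1).1 (List.mem_flatMap.2 ⟨_, hv, hm.1⟩)
    have h2 : q.2.1 < m := (static_mem h q.2).1 (List.mem_flatMap.2 ⟨_, hv, hm.2⟩)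
    obtain ⟨a, ha⟩ := nm_surj h1
    obtain ⟨b, hb⟩ := nm_surj h2
    have h3 : σ a = b := (hr a b).2 ⟨v, hv, by rw [ha, hb]; exact hq⟩
    exact ⟨a, by rw [h3, ha, hb]⟩
  · rintro ⟨x, rfl⟩
    obtain ⟨v, hv, h1⟩ := (hr x (σ x)).1 rfl
    refine ⟨v, hv, ?_⟩
    unfold ve
    exact List.mem_map.2 ⟨_, h1, rfl⟩

theorem mem_full {m : ℕ} {vs : List (List ℕ × List ℕ)} {σ : Perm (Dart (Fin m))}
    (h : Static m vs) (hr : Realises m vs σ) {p : ℕ × ℕ} : p ∈ full m vs ↔
    ∃ x y : Dart (Fin m), p = (vn (nm x) false, vn (nm y) true) ∧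
      (y = x ∨ y = opp x ∨ y = σ x) := by
  unfold full
  rw [List.mem_append, mem_ee, mem_vsve h hr]
  constructor
  · rintro (⟨x, y, h1, h2⟩ | ⟨x, h1⟩)
    · exact ⟨x, y, h1, h2.elim Or.inl (fun h => Or.inr (Or.inl h))⟩
    · exact ⟨x, σ x, h1, Or.inr (Or.inr rfl)⟩
  · rintro ⟨x, y, h1, h2 | h2 | h2⟩
    · exact Or.inl ⟨x, y, h1, Or.inl h2⟩
    · exact Or.inl ⟨x, y, h1, Or.inr h2⟩
    · subst h2
      exact Or.inr ⟨x, h1⟩

section

variable {m : ℕ} {vs : List (List ℕ × List ℕ)} {σ : Perm (Dart (Fin m))}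

theorem sigma_ne (h : Static m vs) (hr : Realises m vs σ) (x : Dart (Fin m)) : σ x ≠ x := by
  intro he
  obtain ⟨v, hv, h1⟩ := (hr x (σ x)).1 rfl
  obtain ⟨t, rfl⟩ := List.mem_iff_get.1 hv
  exact cpairs_ne (static_nodup_cl h hv) (static_len h t) h1 (by rw [he])

theorem sigma_ne_opp (h : Static m vs) (hr : Realises m vs σ) (x : Dart (Fin m)) :
    σ x ≠ opp x := by
  intro he
  obtain ⟨v, hv, h1⟩ := (hr x (σ x)).1 rfl
  obtain ⟨t, rfl⟩ := List.mem_iff_get.1 hv
  have h2 := mem_of_cpairs h1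
  rw [he] at h2
  obtain ⟨e, b⟩ := x
  have key : (e.1, false) ∈ cl (vs.get t) ∧ (e.1, true) ∈ cl (vs.get t) := by
    cases b
    · exact ⟨h2.1, h2.2⟩
    · exact ⟨h2.2, h2.1⟩
  rw [mem_cl_false, mem_cl_true] at key
  exact static_ok h t t le_rfl key.2 key.1

theorem nodup_full (h : Static m vs) (hr : Realises m vs σ) : (full m vs).Nodup := by
  unfold full
  rw [List.nodup_append]
  refine ⟨?_, ?_, ?_⟩
  · rw [List.nodup_flatMap]
    constructor
    · intro e _
      simp only [ee, vn, List.nodup_cons, List.mem_cons, List.not_mem_nil, Prod.mk.injEq,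
        Bool.toNat_true, Bool.toNat_false, or_false]
      simp only [List.nodup_nil, and_true, not_false_eq_true]
      omega
    · refine List.Pairwise.imp ?_ (List.nodup_range (n := m))
      intro a b hab p hp hq
      simp only [ee, List.mem_cons, List.not_mem_nil, or_false, vn] at hp hq
      simp only [Bool.toNat_true, Bool.toNat_false] at hp hq
      rcases hp with rfl | rfl | rfl | rfl <;> simp only [Prod.mk.injEq] at hq <;> omega
  · have h1 : (vs.flatMap ve).map Prod.fst = (vs.flatMap cl).map (fun x => vn x false) := by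
      rw [List.map_flatMap, List.map_flatMap]
      refine List.flatMap_congr fun v _ => ?_
      show ((cpairs (cl v)).map fun p => (vn p.1 false, vn p.2 true)).map Prod.fst = _
      rw [List.map_map]
      have h2 : (Prod.fst ∘ fun p : (ℕ × Bool) × (ℕ × Bool) => (vn p.1 false, vn p.2 true)) =
          (fun x => vn x false) ∘ Prod.fst := rfl
      rw [h2, ← List.map_map, cpairs_fst]
    have h2 : ((vs.flatMap ve).map Prod.fst).Nodup := by
      rw [h1]
      exact List.Nodup.map (fun a b hab => (vn_inj hab).1) (static_nodup h)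
    exact List.Nodup.of_map _ h2
  · intro p hp q hq hpq
    subst hpq
    obtain ⟨x, y, h1, h2⟩ := mem_ee.1 hp
    obtain ⟨z, h3⟩ := (mem_vsve h hr).1 hq
    rw [h1] at h3
    have h4 := (Prod.mk.inj h3)
    have h5 := nm_inj (vn_inj h4.1).1
    have h6 := nm_inj (vn_inj h4.2).1
    subst h5
    subst h6
    rcases h2 with h2 | h2
    · exact sigma_ne h hr x h2
    · exact sigma_ne_opp h hr x h2

theorem m_ge (h : Static m vs) : 2 ≤ m := by
  obtain ⟨r, hr⟩ := static_two h
  have h1 : (1, false) ∈ vs.flatMap cl := by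
    rw [hr, List.mem_flatMap]
    exact ⟨_, List.mem_cons_self, (mem_cl_false _ _).2 (by simp)⟩
  have := (static_mem h _).1 h1
  exact this

theorem mem_tri (h : Static m vs) (hr : Realises m vs σ) {p : ℕ × ℕ} :
    p ∈ tri (cur m 0) ↔ p ∈ full m vs ∧ p.1 = 0 := by
  have hm := m_ge h
  have h0 : σ (⟨0, by omega⟩, false) = (⟨1, by omega⟩, false) := by
    obtain ⟨r, hvs⟩ := static_two h
    refine (hr _ _).2 ⟨([], [0, 1]), by rw [hvs]; exact List.mem_cons_self, ?_⟩
    show ((0, false), (1, false)) ∈ cpairs (cl (([], [0, 1]) : List ℕ × List ℕ))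
    simp [cl, cpairs]
  have e1 : tri (cur m 0) = [(0, 1), (0, 3), (0, 5)] := rfl
  rw [e1, mem_full h hr]
  constructor
  · intro hp
    simp only [List.mem_cons, List.not_mem_nil, or_false] at hp
    rcases hp with rfl | rfl | rfl
    · exact ⟨⟨(⟨0, by omega⟩, false), (⟨0, by omega⟩, false), rfl, Or.inl rfl⟩, rfl⟩
    · exact ⟨⟨(⟨0, by omega⟩, false), (⟨0, by omega⟩, true), rfl, Or.inr (Or.inl rfl)⟩, rfl⟩
    · exact ⟨⟨(⟨0, by omega⟩, false), (⟨1, by omega⟩, false), rfl,
        Or.inr (Or.inr h0.symm)⟩, rfl⟩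
  · rintro ⟨⟨x, y, h1, h2⟩, h3⟩
    have h4 : vn (nm x) false = vn (nm ((⟨0, by omega⟩, false) : Dart (Fin m))) false := by
      rw [h1] at h3
      exact h3
    have h5 := nm_inj (vn_inj h4).1
    subst h5
    rw [h1]
    rcases h2 with rfl | rfl | rfl
    · exact List.mem_cons_self
    · exact List.mem_cons_of_mem _ List.mem_cons_self
    · rw [h0]
      exact List.mem_cons_of_mem _ (List.mem_cons_of_mem _ List.mem_cons_self)

theorem mem_elist (h : Static m vs) (hr : Realises m vs σ) {p : ℕ × ℕ} :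
    p ∈ elist 0 m vs ↔ p ∈ full m vs := by
  unfold elist
  rw [List.mem_append, List.mem_append, mem_tri h hr]
  have e1 : p ∈ base m vs ↔ p ∈ full m vs ∧ p.1 ≠ 0 := by
    unfold base
    rw [List.mem_filter]
    simp [full]
  have e2 : p ∉ pieces m 0 := List.not_mem_nil
  rw [e1]
  tauto

theorem nodup_elist (h : Static m vs) (hr : Realises m vs σ) : (elist 0 m vs).Nodup := by
  unfold elist
  rw [List.nodup_append, List.nodup_append]
  refine ⟨⟨?_, List.nodup_nil, ?_⟩, ?_, ?_⟩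
  · exact List.Nodup.filter _ (nodup_full h hr)
  · intro a _ b hb
    exact absurd hb List.not_mem_nil
  · have e1 : tri (cur m 0) = [(0, 1), (0, 3), (0, 5)] := rfl
    rw [e1]
    decide
  · intro a ha b hb hab
    subst hab
    rw [List.mem_append] at ha
    rcases ha with ha | ha
    · unfold base at ha
      rw [List.mem_filter] at ha
      have := (mem_tri h hr).1 hb
      simp [this.2] at ha
    · exact absurd ha List.not_mem_nil

theorem par {x : ℕ × Bool} (s : Bool) : vn x s % 2 = s.toNat := by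
  unfold vn
  have : s.toNat ≤ 1 := Bool.toNat_le _
  omega

theorem mem_elist' (h : Static m vs) (hr : Realises m vs σ) {x y : Dart (Fin m)} {s t : Bool} :
    (vn (nm x) s, vn (nm y) t) ∈ elist 0 m vs ↔
      s = false ∧ t = true ∧ (y = x ∨ y = opp x ∨ y = σ x) := by
  rw [mem_elist h hr, mem_full h hr]
  constructor
  · rintro ⟨a, b, h1, h2⟩
    have h3 := Prod.mk.inj h1
    have h4 := vn_inj h3.1
    have h5 := vn_inj h3.2
    have h6 := nm_inj h4.1
    have h7 := nm_inj h5.1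
    subst h6
    subst h7
    exact ⟨h4.2, h5.2, h2⟩
  · rintro ⟨rfl, rfl, h2⟩
    exact ⟨x, y, rfl, h2⟩

end

theorem lgr : LgrStmt := by
  intro m vs σ h hr
  have hocc : ∀ v, Occurs (elist 0 m vs) v ↔ v < 4 * m := by
    intro v
    constructor
    · rintro ⟨p, hp, hv⟩
      obtain ⟨x, y, rfl, _⟩ := (mem_full h hr).1 ((mem_elist h hr).1 hp)
      rcases hv with rfl | rfl
      · exact vn_lt x.1.2 _
      · exact vn_lt y.1.2 _
    · intro hv
      obtain ⟨x, s, rfl⟩ := vn_surj hv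
      refine ⟨(vn (nm x) false, vn (nm x) true), (mem_elist' h hr).2 ⟨rfl, rfl, Or.inl rfl⟩, ?_⟩
      cases s
      · exact Or.inl rfl
      · exact Or.inr rfl
  refine ⟨⟨?_, ?_⟩, hocc, ?_⟩
  · refine List.Pairwise.imp_of_mem ?_ (nodup_elist h hr)
    intro p q hp hq hpq
    refine ⟨hpq, ?_⟩
    obtain ⟨x, y, rfl, _⟩ := (mem_full h hr).1 ((mem_elist h hr).1 hp)
    obtain ⟨z, w, rfl, _⟩ := (mem_full h hr).1 ((mem_elist h hr).1 hq)
    intro he
    exact absurd (vn_inj (Prod.mk.inj he).1).2 (by decide)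
  · intro p hp he
    obtain ⟨x, y, rfl, _⟩ := (mem_full h hr).1 ((mem_elist h hr).1 hp)
    exact absurd (vn_inj he).2 (by decide)
  · let ψ : Dart (Fin m) × Bool → {v : ℕ // Occurs (elist 0 m vs) v} :=
      fun p => ⟨vn (nm p.1) p.2, (hocc _).2 (vn_lt p.1.1.2 _)⟩
    have hψ : Function.Bijective ψ := by
      constructor
      · rintro ⟨x, s⟩ ⟨y, t⟩ he
        have h1 := vn_inj (congrArg Subtype.val he)
        exact Prod.ext (nm_inj h1.1) h1.2
      · rintro ⟨v, hv⟩
        obtain ⟨x, s, hx⟩ := vn_surj ((hocc v).1 hv)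
        exact ⟨(x, s), Subtype.ext hx⟩
    let e := Equiv.ofBijective ψ hψ
    have he : ∀ p, e p = ψ p := fun _ => rfl
    have hflip : ∀ x : Dart (Fin m), flip Finset.univ x = opp x := by
      intro x
      unfold flip opp
      simp
    have hadj : ∀ p q, (graphOf (elist 0 m vs)).Adj (e p) (e q) ↔ (gr σ).Adj p q := by
      rintro ⟨x, s⟩ ⟨y, t⟩
      rw [he, he]
      show ψ (x, s) ≠ ψ (y, t) ∧ ((vn (nm x) s, vn (nm y) t) ∈ elist 0 m vs ∨
        (vn (nm y) t, vn (nm x) s) ∈ elist 0 m vs) ↔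
        ((s = false ∧ t = true ∧ (y = x ∨ y = flip Finset.univ x ∨ y = σ x)) ∨
        (t = false ∧ s = true ∧ (x = y ∨ x = flip Finset.univ y ∨ x = σ y)))
      rw [mem_elist' h hr, mem_elist' h hr, hflip, hflip]
      constructor
      · rintro ⟨_, h2⟩
        exact h2
      · intro h2
        refine ⟨?_, h2⟩
        intro h3
        have h4 := (Prod.mk.inj (hψ.1 h3)).2
        rcases h2 with h2 | h2
        · rw [h2.1, h2.2.1] at h4
          exact absurd h4 (by decide)
        · rw [h2.1, h2.2.1] at h4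
          exact absurd h4 (by decide)
    refine ⟨⟨e.symm, ?_⟩, ?_⟩
    · intro u v
      rw [← hadj]
      simp
    · intro y
      show vn (nm (e.symm y).1) (e.symm y).2 = y.1
      have h1 : e (e.symm y) = y := e.apply_symm_apply y
      exact congrArg Subtype.val h1

end Pool.Agent.HAM.H75
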